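import Pool.Agent.Run7.h747.HU.Stm

/-!
# Project HU, pieces PAIR and NOFOUR (helper510)

The special local characters are explicit functions; their patterns at four consecutive places are read off
by computation.
-/

set_option autoImplicit false

namespace Run7.h510.HU

open Run7.h747.HU

/-! ### evaluation of `loc` -/

lemma locA_stable (l : ℕ) (hl : 2 ≤ l) (c : ℕ → ℤˣ) (e : ℤˣ) : ∀ k n : ℕ, 1 ≤ n → n ≤ k →
    locA l c e k n = locA l c e n n := by
  intro k
  induction k using Nat.strong_induction_on with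
  | _ k ih =>
    intro n hn hnk
    rcases Nat.lt_or_ge n k with h | h
    · obtain ⟨k', rfl⟩ : ∃ k', k = k' + 1 := ⟨k - 1, by omega⟩
      obtain ⟨n', rfl⟩ : ∃ n', n = n' + 1 := ⟨n - 1, by omega⟩
      simp only [locA]
      by_cases hd : (n' + 1) % l = 0
      · simp only [hd, if_true]
        have h1 : 1 ≤ (n' + 1) / l := by
          have : l ≤ n' + 1 := Nat.le_of_dvd (by omega) (Nat.dvd_of_mod_eq_zero hd)
          exact Nat.div_pos this (by omega)
        have h2 : (n' + 1) / l < n' + 1 := Nat.div_lt_self (by omega) (by omega)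
        rw [ih k' (by omega) _ h1 (by omega), ih n' (by omega) _ h1 (by omega)]
      · simp [hd]
    · obtain rfl : n = k := by omega
      rfl

lemma loc_rec (l : ℕ) (hl : 2 ≤ l) (c : ℕ → ℤˣ) (e : ℤˣ) (n : ℕ) (hn : 1 ≤ n) :
    loc l c e n = if n % l = 0 then e * loc l c e (n / l) else c n := by
  obtain ⟨n', rfl⟩ : ∃ n', n = n' + 1 := ⟨n - 1, by omega⟩
  unfold loc
  rw [show locA l c e (n' + 1) (n' + 1) = if (n' + 1) % l = 0 then e * locA l c e n' ((n' + 1) / l)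
    else c (n' + 1) from rfl]
  by_cases hd : (n' + 1) % l = 0
  · simp only [hd, if_true]
    have h1 : 1 ≤ (n' + 1) / l := by
      have : l ≤ n' + 1 := Nat.le_of_dvd (by omega) (Nat.dvd_of_mod_eq_zero hd)
      exact Nat.div_pos this (by omega)
    have h2 : (n' + 1) / l < n' + 1 := Nat.div_lt_self (by omega) (by omega)
    rw [locA_stable l hl c e n' _ h1 (by omega)]
  · simp [hd]

lemma loc_congr (l : ℕ) (hl : 2 ≤ l) (c c0 : ℕ → ℤˣ) (e : ℤˣ) (h : ∀ n, ¬ l ∣ n → c n = c0 n) :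
    ∀ n : ℕ, 1 ≤ n → loc l c e n = loc l c0 e n := by
  intro n
  induction n using Nat.strong_induction_on with
  | _ n ih =>
    intro hn
    rw [loc_rec l hl c e n hn, loc_rec l hl c0 e n hn]
    by_cases hd : n % l = 0
    · simp only [hd, if_true]
      have h1 : 1 ≤ n / l := by
        have : l ≤ n := Nat.le_of_dvd (by omega) (Nat.dvd_of_mod_eq_zero hd)
        exact Nat.div_pos this (by omega)
      have h2 : n / l < n := Nat.div_lt_self (by omega) (by omega)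
      rw [ih _ h2 h1]
    · simp only [hd, if_false]
      exact h n (fun hh => hd (Nat.mod_eq_zero_of_dvd hh))

lemma pat_congr (l : ℕ) (hl : 2 ≤ l) (c c0 : ℕ → ℤˣ) (e : ℤˣ) (h : ∀ n, ¬ l ∣ n → c n = c0 n) (n : ℕ)
    (hn : 1 ≤ n) : pat (loc l c e) n = pat (loc l c0 e) n := by
  funext i
  exact loc_congr l hl c c0 e h _ (by omega)

/-! ### the explicit characters -/

/-- the Legendre character -/
def leg (l n : ℕ) : ℤˣ := if (List.range l).any (fun x => x * x % l == n % l) then 1 else -1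

/-- the character modulo 4 -/
def c4 (n : ℕ) : ℤˣ := if n % 4 = 3 then -1 else 1

/-- the codes of the patterns -/
def cd (k : ℕ) : Fin 4 → ℤˣ := fun i => if k.testBit i then -1 else 1

lemma leg_mod (l n : ℕ) : leg l (n % l) = leg l n := by simp [leg]

lemma leg_one_of {l n : ℕ} (h : leg l n = 1) : ∃ x, x * x % l = n % l := by
  unfold leg at h
  split_ifs at h with h1
  · obtain ⟨x, -, hx⟩ := List.any_eq_true.1 h1
    exact ⟨x, by simpa using hx⟩
  · exact absurd h (by decide)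

lemma unit_cases (u : ℤˣ) : u = 1 ∨ u = -1 := Int.units_eq_one_or u

lemma unit_sq (u : ℤˣ) : u * u = 1 := Int.units_mul_self u

/-- two non-residues differ by a square -/
def NR (l : ℕ) : Prop := ∀ a < l, ∀ b < l, leg l a = -1 → leg l b = -1 → ∃ x < l, b * (x * x) % l = a

instance (l : ℕ) : Decidable (NR l) := by unfold NR; infer_instance

lemma eq_leg (l : ℕ) (hp : l.Prime) (hl : 3 ≤ l) (hnr : NR l) (c : ℕ → ℤˣ) (hc : LC l c) (ht : ¬ Tr l c) :
    ∀ n, ¬ l ∣ n → c n = leg l n := by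
  have hper : ∀ m n : ℕ, ¬ l ∣ m → m ≡ n [MOD l] → c m = c n := by
    intro m n hm h
    have := hc.per m n hm
    rw [if_neg (by omega)] at this
    exact this h
  have hsq : ∀ x : ℕ, ¬ l ∣ x → c (x * x) = 1 := fun x hx => by rw [hc.mul x x hx hx, unit_sq]
  have hone : ∀ n, ¬ l ∣ n → leg l n = 1 → c n = 1 := by
    intro n hn h
    obtain ⟨x, hx⟩ := leg_one_of h
    have hx' : ¬ l ∣ x := by
      intro hd
      apply hn
      have : x * x % l = 0 := Nat.mod_eq_zero_of_dvd (Dvd.dvd.mul_left hd x)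
      rw [this] at hx
      exact Nat.dvd_of_mod_eq_zero hx.symm
    rw [hper n (x * x) hn hx.symm, hsq x hx']
  obtain ⟨n0, hn0, hc0⟩ : ∃ n0, ¬ l ∣ n0 ∧ c n0 ≠ 1 := by
    unfold Tr at ht
    push Not at ht
    exact ht
  have hc0' : c n0 = -1 := (unit_cases _).resolve_left hc0
  have hleg0 : leg l n0 = -1 := by
    rcases unit_cases (leg l n0) with h | h
    · exact absurd (hone n0 hn0 h) hc0
    · exact h
  intro n hn
  rcases unit_cases (leg l n) with h | h
  · rw [h, hone n hn h]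
  · rw [h]
    obtain ⟨x, -, hx⟩ := hnr (n % l) (Nat.mod_lt _ (by omega)) (n0 % l) (Nat.mod_lt _ (by omega))
      (by rw [leg_mod, h]) (by rw [leg_mod, hleg0])
    have hmod : n ≡ n0 * (x * x) [MOD l] := by
      unfold Nat.ModEq
      rw [← hx, Nat.mul_mod (n0 % l) (x * x) l, Nat.mod_mod, ← Nat.mul_mod]
    have hx' : ¬ l ∣ x := by
      intro hd
      apply hn
      exact (Nat.ModEq.dvd_iff hmod (dvd_refl l)).2 (Dvd.dvd.mul_left (Dvd.dvd.mul_left hd x) n0)
    have hxx : ¬ l ∣ x * x := fun hd => hx' ((hp.dvd_mul.1 hd).elim id id)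
    rw [hper n _ hn hmod, hc.mul n0 (x * x) hn0 hxx, hsq x hx', hc0', mul_one]

lemma eq_c4 (c : ℕ → ℤˣ) (hc : LC 2 c) (h3 : c 3 = -1) (h5 : c 5 = 1) : ∀ n, ¬ 2 ∣ n → c n = c4 n := by
  have hper : ∀ m n : ℕ, ¬ 2 ∣ m → m ≡ n [MOD 8] → c m = c n := by
    intro m n hm h
    have := hc.per m n hm
    rw [if_pos rfl] at this
    exact this h
  have h1 : c 1 = 1 := by
    have h := hc.mul 1 1 (by norm_num) (by norm_num)
    rw [mul_one, unit_sq] at h
    exact h
  have h7 : c 7 = -1 := by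
    rw [hper 7 (3 * 5) (by norm_num) (by decide), hc.mul 3 5 (by norm_num) (by norm_num), h3, h5]
    rfl
  intro n hn
  have hn2 : n % 2 = 1 := by omega
  have hlt : n % 8 < 8 := Nat.mod_lt _ (by norm_num)
  have hn8 : n % 8 = 1 ∨ n % 8 = 3 ∨ n % 8 = 5 ∨ n % 8 = 7 := by omega
  rcases hn8 with h | h | h | h
  · rw [hper n 1 hn h, h1, c4, if_neg (by omega)]
  · rw [hper n 3 hn h, h3, c4, if_pos (by omega)]
  · rw [hper n 5 hn h, h5, c4, if_neg (by omega)]
  · rw [hper n 7 hn h, h7, c4, if_pos (by omega)]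

lemma nr3 : NR 3 := by decide +kernel
lemma nr5 : NR 5 := by decide +kernel
lemma nr7 : NR 7 := by decide +kernel
lemma nr11 : NR 11 := by decide +kernel
lemma nr13 : NR 13 := by decide +kernel
lemma nr53 : NR 53 := by decide +kernel

/-! ### the eight kinds -/

/-- the prime of the kind -/
def pr : Fin 8 → ℕ := ![2, 2, 3, 5, 7, 11, 13, 53]

/-- the explicit character of the kind -/
def ch : Fin 8 → ℕ → ℤˣ := ![fun _ => 1, c4, leg 3, leg 5, leg 7, leg 11, leg 13, leg 53]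

/-- the codes of patterns that occur for both values of `e` -/
def cs : Fin 8 → List ℕ := ![[1, 2, 4, 5, 8, 10], [1, 2, 3, 4, 6, 7, 8, 9, 11, 12, 13, 14],
  [2, 4, 5, 6, 9, 11, 12, 13], [1, 3, 5, 6, 8, 10, 11, 12, 13], [1, 3, 4, 6, 7, 8, 9, 10, 13, 14],
  [1, 2, 4, 5, 6, 7, 8, 9, 11, 12, 13, 14], [1, 2, 3, 4, 5, 7, 8, 9, 10, 12, 14, 15],
  [1, 2, 3, 4, 5, 6, 7, 8, 9, 10, 11, 12, 13, 14, 15]]

/-- **the special local characters are the explicit ones** -/
theorem kinds (l : ℕ) (c : ℕ → ℤˣ) (e : ℤˣ) (hp : l.Prime) (hc : LC l c) (hs : Special l c e) :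
    ∃ k : Fin 8, l = pr k ∧ (k = 0 → e = -1) ∧ ∀ n, ¬ l ∣ n → c n = ch k n := by
  rcases hs with ⟨rfl, ht, he⟩ | ⟨rfl, h3, h5⟩ | ⟨hl, ht⟩
  · exact ⟨0, rfl, fun _ => he, fun n hn => ht n hn⟩
  · exact ⟨1, rfl, fun h => absurd h (by decide), eq_c4 c hc h3 h5⟩
  · simp only [Finset.mem_insert, Finset.mem_singleton] at hl
    rcases hl with rfl | rfl | rfl | rfl | rfl | rfl
    · exact ⟨2, rfl, fun h => absurd h (by decide), eq_leg 3 hp (by norm_num) nr3 c hc ht⟩
    · exact ⟨3, rfl, fun h => absurd h (by decide), eq_leg 5 hp (by norm_num) nr5 c hc ht⟩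
    · exact ⟨4, rfl, fun h => absurd h (by decide), eq_leg 7 hp (by norm_num) nr7 c hc ht⟩
    · exact ⟨5, rfl, fun h => absurd h (by decide), eq_leg 11 hp (by norm_num) nr11 c hc ht⟩
    · exact ⟨6, rfl, fun h => absurd h (by decide), eq_leg 13 hp (by norm_num) nr13 c hc ht⟩
    · exact ⟨7, rfl, fun h => absurd h (by decide), eq_leg 53 hp (by norm_num) nr53 c hc ht⟩

lemma two_le_pr : ∀ k : Fin 8, 2 ≤ pr k := by decide

lemma codes_dec : ∀ k : Fin 8, ∀ e ∈ ([1, -1] : List ℤˣ), (k = 0 → e = -1) → ∀ x ∈ cs k,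
    ∃ n < 49, 1 ≤ n ∧ pat (loc (pr k) (ch k) e) n = cd x := by
  decide +kernel

/-- the listed patterns occur -/
theorem codes (l : ℕ) (c : ℕ → ℤˣ) (e : ℤˣ) (k : Fin 8) (hl : l = pr k)
    (he : k = 0 → e = -1) (hc : ∀ n, ¬ l ∣ n → c n = ch k n) (x : ℕ) (hx : x ∈ cs k) :
    ∃ n, 1 ≤ n ∧ pat (loc l c e) n = cd x := by
  have hl2 : 2 ≤ l := by rw [hl]; exact two_le_pr k
  obtain ⟨n, -, hn, h⟩ := codes_dec k e (by rcases unit_cases e with h | h <;> simp [h]) he x hx
  refine ⟨n, hn, ?_⟩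
  rw [pat_congr l hl2 c (ch k) e hc n hn, ← h, hl]

lemma pair_dec : ∀ k k' : Fin 8, pr k ≠ pr k' → ∀ v : Fin 4 → ℤˣ,
    ∃ x ∈ cs k, ∃ y ∈ cs k', cd x * cd y = v := by
  decide +kernel

/-- **PAIR** -/
theorem t_PAIR : S_PAIR := by
  intro l c e s c' e' hl hc hsp hs hc' hsp' hne v
  obtain ⟨k, hk, hke, hkc⟩ := kinds l c e hl hc hsp
  obtain ⟨k', hk', hke', hkc'⟩ := kinds s c' e' hs hc' hsp'
  obtain ⟨x, hx, y, hy, hxy⟩ := pair_dec k k' (by rw [← hk, ← hk']; exact hne) v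
  obtain ⟨m, hm, h1⟩ := codes l c e k hk hke hkc x hx
  obtain ⟨n, hn, h2⟩ := codes s c' e' k' hk' hke' hkc' y hy
  exact ⟨m, n, hm, hn, by rw [h1, h2, hxy]⟩

/-! ### NOFOUR -/

/-- a place where the value is `-1`, for every residue modulo `l` -/
def NF (l : ℕ) : Prop := ∀ r < l, ∃ i < 4, (r + i) % l ≠ 0 ∧ leg l ((r + i) % l) = -1

instance (l : ℕ) : Decidable (NF l) := by unfold NF; infer_instance

lemma nf_of (l : ℕ) (hl : 3 ≤ l) (h : NF l) (c : ℕ → ℤˣ) (e : ℤˣ) (hc : ∀ n, ¬ l ∣ n → c n = leg l n) :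
    ¬ Four (loc l c e) := by
  rintro ⟨n, hn, hp⟩
  obtain ⟨i, hi, h0, h1⟩ := h (n % l) (Nat.mod_lt _ (by omega))
  have hmod : (n % l + i) % l = (n + i) % l := by rw [Nat.add_mod, Nat.mod_mod, ← Nat.add_mod]
  rw [hmod] at h0 h1
  rw [leg_mod] at h1
  have h2 := congrFun hp ⟨i, hi⟩
  simp only [pat, Pi.one_apply] at h2
  rw [loc_rec l (by omega) c e (n + i) (by omega), if_neg h0,
    hc _ (fun hd => h0 (Nat.mod_eq_zero_of_dvd hd)), h1] at h2
  exact absurd h2 (by decide)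

lemma nf3 : NF 3 := by decide +kernel
lemma nf5 : NF 5 := by decide +kernel
lemma nf7 : NF 7 := by decide +kernel
lemma nf11 : NF 11 := by decide +kernel
lemma nf13 : NF 13 := by decide +kernel
lemma nf53 : NF 53 := by decide +kernel

/-- **NOFOUR** -/
theorem t_NOFOUR : S_NOFOUR := by
  intro l c e hl hc hsp
  rcases hsp with ⟨rfl, ht, he⟩ | ⟨rfl, h3, h5⟩ | ⟨hm, ht⟩
  · rintro ⟨n, hn, hp⟩
    obtain ⟨i, hi, hi2⟩ : ∃ i < 4, (n + i) % 4 = 2 := ⟨(6 - n % 4) % 4, Nat.mod_lt _ (by norm_num), by omega⟩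
    have h2 := congrFun hp ⟨i, hi⟩
    simp only [pat, Pi.one_apply] at h2
    rw [loc_rec 2 (by norm_num) c e (n + i) (by omega), if_pos (by omega),
      loc_rec 2 (by norm_num) c e ((n + i) / 2) (by omega), if_neg (by omega),
      ht _ (by omega), he] at h2
    exact absurd h2 (by decide)
  · rintro ⟨n, hn, hp⟩
    obtain ⟨i, hi, hi2⟩ : ∃ i < 4, (n + i) % 4 = 3 := ⟨(7 - n % 4) % 4, Nat.mod_lt _ (by norm_num), by omega⟩
    have h2 := congrFun hp ⟨i, hi⟩
    simp only [pat, Pi.one_apply] at h2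
    rw [loc_rec 2 (by norm_num) c e (n + i) (by omega), if_neg (by omega),
      eq_c4 c hc h3 h5 _ (by omega), c4, if_pos hi2] at h2
    exact absurd h2 (by decide)
  · simp only [Finset.mem_insert, Finset.mem_singleton] at hm
    rcases hm with rfl | rfl | rfl | rfl | rfl | rfl
    · exact nf_of 3 (by norm_num) nf3 c e (eq_leg 3 hl (by norm_num) nr3 c hc ht)
    · exact nf_of 5 (by norm_num) nf5 c e (eq_leg 5 hl (by norm_num) nr5 c hc ht)
    · exact nf_of 7 (by norm_num) nf7 c e (eq_leg 7 hl (by norm_num) nr7 c hc ht)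
    · exact nf_of 11 (by norm_num) nf11 c e (eq_leg 11 hl (by norm_num) nr11 c hc ht)
    · exact nf_of 13 (by norm_num) nf13 c e (eq_leg 13 hl (by norm_num) nr13 c hc ht)
    · exact nf_of 53 (by norm_num) nf53 c e (eq_leg 53 hl (by norm_num) nr53 c hc ht)

end Run7.h510.HU
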